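import Pool.Agent.FPPT.Mono

/-!
If there is no percolation, the passage time to the sphere of radius `n` tends to infinity almost
surely.
-/

set_option autoImplicit false
set_option linter.deprecated false

open Finset MeasureTheory Filter
open scoped NNReal ENNReal

namespace Pool.Agent.FPPD15

open Pool.Agent.FPP38 Pool.Agent.FPPT

variable {d : ℕ}

/-- the number of closed edges of a walk -/
def cost (ω : Sym2 (Fin d → ℤ) → Bool) {x y : Fin d → ℤ} (w : (Z d).Walk x y) : ℕ :=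
  (w.edges.map (fun e => if ω e then (0 : ℕ) else 1)).sum

theorem cost_cons (ω : Sym2 (Fin d → ℤ) → Bool) {x y z : Fin d → ℤ} (h : (Z d).Adj x y)
    (w : (Z d).Walk y z) :
    cost ω (SimpleGraph.Walk.cons h w) = (if ω s(x, y) then (0 : ℕ) else 1) + cost ω w := by
  unfold cost
  rw [SimpleGraph.Walk.edges_cons, List.map_cons, List.sum_cons]

/-- a walk with at most `k + 1` closed edges is open, or it has a first closed edge -/
theorem split_walk (ω : Sym2 (Fin d → ℤ) → Bool) (k : ℕ) {x z : Fin d → ℤ} (w : (Z d).Walk x z)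
    (h : cost ω w ≤ k + 1) :
    cost ω w = 0 ∨ ∃ x' y : Fin d → ℤ, (Z d).Adj x' y ∧ (∃ u : (Z d).Walk x x', cost ω u = 0) ∧
      ∃ v : (Z d).Walk y z, cost ω v ≤ k := by
  induction w with
  | nil => exact Or.inl rfl
  | @cons x y z hxy w ih =>
    rw [cost_cons] at h ⊢
    by_cases ho : ω s(x, y) = true
    · rw [if_pos ho, zero_add] at h ⊢
      rcases ih h with h0 | ⟨x', y', ha, ⟨u, hu⟩, v, hv⟩
      · exact Or.inl h0
      · refine Or.inr ⟨x', y', ha, ⟨SimpleGraph.Walk.cons hxy u, ?_⟩, v, hv⟩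
        rw [cost_cons, if_pos ho, hu]
    · rw [if_neg ho] at h
      exact Or.inr ⟨x, y, hxy, ⟨SimpleGraph.Walk.nil, rfl⟩, w, by omega⟩

/-- arbitrarily far vertices can be reached from `x` with at most `k` closed edges -/
def Far (k : ℕ) (x : Fin d → ℤ) : Set (Sym2 (Fin d → ℤ) → Bool) :=
  {ω | ∀ n : ℕ, ∃ y : Fin d → ℤ, y ∉ box (0 : Fin d → ℤ) n ∧ ∃ w : (Z d).Walk x y, cost ω w ≤ k}

theorem box_mono {n m : ℕ} (h : n ≤ m) : box (0 : Fin d → ℤ) n ⊆ box 0 m := by
  intro x hx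
  rw [mem_box] at hx ⊢
  intro i
  exact (hx i).trans (by exact_mod_cast h)

theorem far_succ (k : ℕ) (x : Fin d → ℤ) :
    Far (k + 1) x ⊆ Far 0 x ∪ ⋃ y : Fin d → ℤ, Far k y := by
  intro ω hω
  by_contra hcon
  rw [Set.mem_union, Set.mem_iUnion, not_or, not_exists] at hcon
  obtain ⟨h0, hk⟩ := hcon
  have h0' : ∃ n : ℕ, ∀ y : Fin d → ℤ, (∃ w : (Z d).Walk x y, cost ω w ≤ 0) →
      y ∈ box (0 : Fin d → ℤ) n := by
    by_contra hc
    push Not at hc
    exact h0 fun n => by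
      obtain ⟨y, ⟨w, hw⟩, hy⟩ := hc n
      exact ⟨y, hy, w, hw⟩
  have hk' : ∀ y : Fin d → ℤ, ∃ n : ℕ, ∀ z : Fin d → ℤ, (∃ w : (Z d).Walk y z, cost ω w ≤ k) →
      z ∈ box (0 : Fin d → ℤ) n := by
    intro y
    by_contra hc
    push Not at hc
    exact hk y fun n => by
      obtain ⟨z, ⟨w, hw⟩, hz⟩ := hc n
      exact ⟨z, hz, w, hw⟩
  obtain ⟨n0, hn0⟩ := h0'
  choose f hf using hk'
  set N : ℕ := n0 + ∑ y ∈ box (0 : Fin d → ℤ) (n0 + 1), f y with hN
  obtain ⟨z, hz, w, hw⟩ := hω N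
  rcases split_walk ω k w hw with hc | ⟨x', y, ha, ⟨u, hu⟩, v, hv⟩
  · exact hz (box_mono (by omega) (hn0 z ⟨w, hc.le⟩))
  · have hx' := hn0 x' ⟨u, hu.le⟩
    have hy : y ∈ box (0 : Fin d → ℤ) (n0 + 1) := by
      rw [mem_box] at hx' ⊢
      intro i
      have h1 := hx' i
      have h2 := (Z_adj.1 ha).symm.abs_le i
      have h3 : |y i - (0 : Fin d → ℤ) i| ≤ |y i - x' i| + |x' i - (0 : Fin d → ℤ) i| :=
        abs_sub_le _ _ _
      push_cast
      omega
    have hz' := hf y z ⟨v, hv⟩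
    have h4 : f y ≤ ∑ y ∈ box (0 : Fin d → ℤ) (n0 + 1), f y :=
      single_le_sum (fun _ _ => Nat.zero_le _) hy
    exact hz (box_mono (by omega) hz')

/-- translation of the edges -/
def trE (u : Fin d → ℤ) : Sym2 (Fin d → ℤ) ≃ Sym2 (Fin d → ℤ) where
  toFun := Sym2.map (fun x => x + u)
  invFun := Sym2.map (fun x => x - u)
  left_inv := by
    intro e
    induction e using Sym2.ind with
    | _ a b => simp
  right_inv := by
    intro e
    induction e using Sym2.ind with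
    | _ a b => simp

/-- translate a walk -/
theorem translate_walk {ω ω' : Sym2 (Fin d → ℤ) → Bool} (u : Fin d → ℤ)
    (h : ∀ a b, ω' s(a + u, b + u) = ω s(a, b)) {x y : Fin d → ℤ} (w : (Z d).Walk x y) :
    ∃ w' : (Z d).Walk (x - u) (y - u), cost ω w' = cost ω' w := by
  induction w with
  | nil => exact ⟨SimpleGraph.Walk.nil, rfl⟩
  | @cons x y z hxy w ih =>
    obtain ⟨w', hw'⟩ := ih
    have ha : (Z d).Adj (x - u) (y - u) := by
      rw [Z_adj] at hxy ⊢
      unfold Nb at hxy ⊢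
      simpa using hxy
    refine ⟨SimpleGraph.Walk.cons ha w', ?_⟩
    have h1 := h (x - u) (y - u)
    rw [sub_add_cancel, sub_add_cancel] at h1
    rw [cost_cons, cost_cons, hw', h1]

theorem far_zero_null {p : ℝ≥0} (hp : p ≤ 1) (h0 : PB (Fin d → ℤ) p hp (Perc d) = 0)
    (u : Fin d → ℤ) : PB (Fin d → ℤ) p hp (Far 0 u) = 0 := by
  have hsub0 : Far 0 (0 : Fin d → ℤ) ⊆ Perc d := by
    intro ω hω n
    obtain ⟨y, hy, w, hw⟩ := hω n
    obtain ⟨v, hv, w', hw'⟩ := cut_walk (ω := ω) w (self_mem_box _ _) (fun h => absurd h hy)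
    rw [mem_sph] at hv
    refine ⟨v, by simpa using hv.2, by simpa using hv.1, w', fun e he => ?_⟩
    have h1 : (w'.edges.map (fun e => if ω e then (0 : ℕ) else 1)).sum = 0 := by
      have h2 : cost ω w ≤ 0 := hw
      unfold cost at h2
      omega
    by_contra hne
    have h3 := List.sum_eq_zero_iff.1 h1 (if ω e then (0 : ℕ) else 1)
      (List.mem_map_of_mem he)
    rw [if_neg hne] at h3
    exact one_ne_zero h3
  have hmap := Measure.infinitePi_map_piCongrLeft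
    (fun _ : Sym2 (Fin d → ℤ) => (PMF.bernoulli p hp).toMeasure) (trE u)
  have h1 : PB (Fin d → ℤ) p hp (Far 0 u) = PB (Fin d → ℤ) p hp
      ((MeasurableEquiv.piCongrLeft (fun _ : Sym2 (Fin d → ℤ) => Bool) (trE u)) ⁻¹' Far 0 u) := by
    conv_lhs => rw [PB, ← hmap]
    rw [MeasurableEquiv.map_apply]
  rw [h1]
  refine measure_mono_null (fun ω hω => ?_) h0
  refine hsub0 fun n => ?_
  set ω' := (MeasurableEquiv.piCongrLeft (fun _ : Sym2 (Fin d → ℤ) => Bool) (trE u)) ω with hω'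
  have hrel : ∀ a b, ω' s(a + u, b + u) = ω s(a, b) := by
    intro a b
    have e : s(a + u, b + u) = trE u s(a, b) := rfl
    rw [e, hω']
    exact Equiv.piCongrLeft_apply_apply (fun _ => Bool) (trE u) ω s(a, b)
  set M : ℕ := n + ∑ i, (u i).natAbs with hM
  have hω2 : ω' ∈ Far 0 u := hω
  obtain ⟨y, hy, w, hw⟩ := hω2 M
  have hex : ∃ w' : (Z d).Walk 0 (y - u), cost ω w' = cost ω' w := by
    have := translate_walk u hrel w
    rwa [sub_self] at this
  obtain ⟨w', hw'⟩ := hex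
  refine ⟨y - u, fun hb => hy ?_, w', hw'.le.trans hw⟩
  rw [mem_box] at hb ⊢
  intro i
  have h2 := hb i
  rw [Pi.sub_apply, Pi.zero_apply, sub_zero] at h2
  rw [Pi.zero_apply, sub_zero]
  have h3 : (u i).natAbs ≤ ∑ i, (u i).natAbs :=
    single_le_sum (f := fun i => (u i).natAbs) (fun _ _ => Nat.zero_le _) (mem_univ i)
  have h4 : |y i| ≤ |y i - u i| + |u i| := by
    have := abs_add_le (y i - u i) (u i)
    rwa [sub_add_cancel] at this
  have h5 : |u i| = ((u i).natAbs : ℤ) := Int.abs_eq_natAbs _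
  have h6 : ((u i).natAbs : ℤ) ≤ ((∑ i, (u i).natAbs : ℕ) : ℤ) := Int.ofNat_le.2 h3
  rw [hM, Nat.cast_add]
  omega

theorem far_null {p : ℝ≥0} (hp : p ≤ 1) (h0 : PB (Fin d → ℤ) p hp (Perc d) = 0) (k : ℕ) :
    ∀ u : Fin d → ℤ, PB (Fin d → ℤ) p hp (Far k u) = 0 := by
  induction k with
  | zero => exact far_zero_null hp h0
  | succ k ih =>
    intro u
    refine measure_mono_null (far_succ k u) (measure_union_null (far_zero_null hp h0 u) ?_)
    exact measure_iUnion_null ih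

/-- **no percolation: the passage time tends to infinity almost surely** -/
theorem ae_tendsto (i : Fin d) {p : ℝ≥0} (hp : p ≤ 1)
    (h0 : PB (Fin d → ℤ) p hp (Perc d) = 0) :
    ∀ᵐ ω ∂(PB (Fin d → ℤ) p hp), Tendsto (fun n => TT d n ω) atTop atTop := by
  have h1 : PB (Fin d → ℤ) p hp (⋃ k : ℕ, Far k (0 : Fin d → ℤ)) = 0 :=
    measure_iUnion_null fun k => far_null hp h0 k 0
  have h2 : ∀ᵐ ω ∂(PB (Fin d → ℤ) p hp), ω ∉ ⋃ k : ℕ, Far k (0 : Fin d → ℤ) :=
    measure_eq_zero_iff_ae_notMem.1 h1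
  filter_upwards [h2] with ω hω
  refine tendsto_atTop_atTop_of_monotone (fun n m h => TT_mono i h ω) fun b => ?_
  by_contra hc
  push Not at hc
  refine hω (Set.mem_iUnion.2 ⟨b, fun n => ?_⟩)
  obtain ⟨y, hy1, hy2, w, hw⟩ := Nat.sInf_mem (TT_set_nonempty i (n + 1) ω)
  refine ⟨y, fun hb => ?_, w, ?_⟩
  · obtain ⟨j, hj⟩ := hy1
    rw [mem_box] at hb
    have := hb j
    rw [Pi.zero_apply, sub_zero, hj] at this
    push_cast at this
    omega
  · have h3 : cost ω w = TT d (n + 1) ω := hw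
    rw [h3]
    exact (hc (n + 1)).le

end Pool.Agent.FPPD15
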