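import Pool.Agent.FPPD15.Dich
import Pool.Agent.FPPT.Tail
import Pool.Agent.FPPT.Bridge

/-!
The passage time to infinity: infinite without percolation, below a Poisson variable of mean
`- log θ` with percolation.
-/

set_option autoImplicit false
set_option linter.deprecated false

open Finset MeasureTheory Filter Topology
open scoped NNReal ENNReal

namespace Pool.Agent.FPPD15

open Pool.Agent.FPP38 Pool.Agent.FPPT

section

variable {V : Type*} {A O : Finset (Sym2 V)}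

theorem rc_mono {S R : Finset V} {k : ℕ} {v : V} (h : RC A O S R k v) :
    ∀ m : ℕ, k ≤ m → RC A O S R m v := by
  induction h with
  | b0 h => exact fun m _ => RC.b0 h
  | @b1 k v h =>
    intro m hm
    obtain ⟨m', rfl⟩ : ∃ m', m = m' + 1 := ⟨m - 1, by omega⟩
    exact RC.b1 h
  | op _ hs ih => exact fun m hm => RC.op (ih m hm) hs
  | @cl k u v _ hs ih =>
    intro m hm
    obtain ⟨m', rfl⟩ : ∃ m', m = m' + 1 := ⟨m - 1, by omega⟩
    exact RC.cl (ih m' (by omega)) hs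

theorem rc_trans {x x' : V} {m : ℕ} (h0 : RC A O {x} ∅ m x') {j : ℕ} {v : V}
    (h : RC A O {x'} ∅ j v) : RC A O {x} ∅ (m + j) v := by
  induction h with
  | b0 h =>
    rw [mem_singleton] at h
    subst h
    exact rc_mono h0 _ (by omega)
  | b1 h => exact absurd h (notMem_empty _)
  | op _ hs ih => exact RC.op ih hs
  | cl _ hs ih => exact RC.cl ih hs

end

variable {d : ℕ}

theorem walk_to_rc {ω : Sym2 (Fin d → ℤ) → Bool} {n : ℕ} {x y : Fin d → ℤ} (w : (Z d).Walk x y)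
    (hx : x ∈ box (0 : Fin d → ℤ) n) (hy : y ∈ box (0 : Fin d → ℤ) n → y ∈ sph (0 : Fin d → ℤ) n) :
    ∃ v ∈ sph (0 : Fin d → ℤ) n, RC (EB 0 n) (opn (EB 0 n) ω) {x} ∅ (cost ω w) v := by
  induction w with
  | nil => exact ⟨_, hy hx, RC.b0 (mem_singleton_self _)⟩
  | @cons x x' y h w ih =>
    by_cases hxs : x ∈ sph (0 : Fin d → ℤ) n
    · exact ⟨x, hxs, RC.b0 (mem_singleton_self _)⟩
    · have hx' := mem_box_of_nb hx hxs (Z_adj.1 h)
      have he : s(x, x') ∈ EB (0 : Fin d → ℤ) n := mem_EB.2 ⟨hx, hx', Z_adj.1 h⟩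
      obtain ⟨v, hv, hr⟩ := ih hx' hy
      refine ⟨v, hv, ?_⟩
      rw [cost_cons]
      by_cases ho : ω s(x, x') = true
      · rw [if_pos ho]
        exact rc_trans (RC.op (RC.b0 (mem_singleton_self _)) (mem_opn.2 ⟨he, ho⟩)) hr
      · rw [if_neg ho]
        exact rc_trans (RC.cl (RC.b0 (mem_singleton_self _)) he) hr

theorem TT_le_iff (i : Fin d) (n k : ℕ) (ω : Sym2 (Fin d → ℤ) → Bool) :
    TT d n ω ≤ k ↔
      Hit (sph (0 : Fin d → ℤ) n : Set (Fin d → ℤ)) (EB 0 n) (opn (EB 0 n) ω) {0} ∅ k := by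
  constructor
  · intro h
    obtain ⟨y, hy1, hy2, w, hw⟩ := Nat.sInf_mem (TT_set_nonempty i n ω)
    obtain ⟨v, hv, hr⟩ := walk_to_rc (ω := ω) w (self_mem_box _ _) (fun _ => by
      rw [mem_sph]
      refine ⟨fun j => ?_, ?_⟩
      · rw [Pi.zero_apply, sub_zero]; exact hy2 j
      · obtain ⟨j, hj⟩ := hy1
        exact ⟨j, by rw [Pi.zero_apply, sub_zero]; exact hj⟩)
    have h3 : cost ω w = TT d n ω := hw
    rw [h3] at hr
    exact ⟨v, hv, rc_mono hr k h⟩
  · exact hit_le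

theorem measurable_TT (i : Fin d) (n : ℕ) : Measurable (TT d n) := by
  refine measurable_of_Iic fun k => ?_
  have e : TT d n ⁻¹' Set.Iic k = {ω | (fun O => Hit (sph (0 : Fin d → ℤ) n : Set (Fin d → ℤ))
      (EB 0 n) O {0} ∅ k) (opn (EB 0 n) ω)} := by
    ext ω
    exact TT_le_iff i n k ω
  rw [e]
  exact measurable_event (EB (0 : Fin d → ℤ) n) (fun O =>
    Hit (sph (0 : Fin d → ℤ) n : Set (Fin d → ℤ)) (EB 0 n) O {0} ∅ k)

theorem measurable_TT' (i : Fin d) (n : ℕ) : Measurable (fun ω => (TT d n ω : ℝ≥0∞)) :=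
  (measurable_from_nat (f := fun m : ℕ => (m : ℝ≥0∞))).comp (measurable_TT i n)

/-- without percolation the mean tends to infinity -/
theorem mean_tendsto (i : Fin d) {p : ℝ≥0} (hp : p ≤ 1)
    (h0 : PB (Fin d → ℤ) p hp (Perc d) = 0) :
    Tendsto (fun n => ∫⁻ ω, (TT d n ω : ℝ≥0∞) ∂(PB (Fin d → ℤ) p hp)) atTop (𝓝 ∞) := by
  have h := lintegral_tendsto_of_tendsto_of_monotone (μ := PB (Fin d → ℤ) p hp)
    (f := fun n ω => (TT d n ω : ℝ≥0∞)) (F := fun _ => ∞)
    (fun n => (measurable_TT' i n).aemeasurable)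
    (Eventually.of_forall fun ω n m h => Nat.cast_le.2 (TT_mono i h ω))
    (by
      filter_upwards [ae_tendsto i hp h0] with ω hω
      exact ENNReal.tendsto_nat_nhds_top.comp hω)
  simpa using h

/-- with percolation: one Poisson variable for all scales -/
theorem tail_theta {p : ℝ≥0} (hp : p ≤ 1) (h0 : 0 < PB (Fin d → ℤ) p hp (Perc d)) (n k : ℕ) :
    PB (Fin d → ℤ) p hp {ω | k < TT d n ω} ≤
      ENNReal.ofReal (PT (k + 1) (-Real.log (PB (Fin d → ℤ) p hp (Perc d)).toReal)) ∧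
    ∫⁻ ω, (TT d n ω : ℝ≥0∞) ∂(PB (Fin d → ℤ) p hp) ≤
      ENNReal.ofReal (-Real.log (PB (Fin d → ℤ) p hp (Perc d)).toReal) := by
  have h1 : (p : ℝ) ≤ 1 := by exact_mod_cast hp
  set θ : ℝ := (PB (Fin d → ℤ) p hp (Perc d)).toReal with hθ
  have hfin : PB (Fin d → ℤ) p hp (Perc d) ≠ ∞ := measure_ne_top _ _
  have hθ0 : 0 < θ := ENNReal.toReal_pos h0.ne' hfin
  have harm0 : 0 ≤ arm p d n := Q_nonneg p.coe_nonneg h1 _ _ _
  have hle : θ ≤ arm p d n := by
    have := ENNReal.toReal_mono ENNReal.ofReal_ne_top (perc_le_arm (d := d) hp n)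
    rwa [ENNReal.toReal_ofReal harm0] at this
  have harm : 0 < arm p d n := hθ0.trans_le hle
  have hlog : -Real.log (arm p d n) ≤ -Real.log θ := neg_le_neg (Real.log_le_log hθ0 hle)
  have hlog0 : 0 ≤ -Real.log (arm p d n) :=
    neg_nonneg.mpr (Real.log_nonpos harm.le (Q_le_one p.coe_nonneg h1 _ _ _))
  constructor
  · refine (measure_TT_gt hp n k).trans (ENNReal.ofReal_le_ofReal ?_)
    exact (tail_le p.coe_nonneg h1 _ _ _ k harm).trans (PT_mono (k + 1) hlog0 hlog)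
  · exact (lintegral_TT hp n harm).trans (ENNReal.ofReal_le_ofReal hlog)

theorem PT_theta {θ : ℝ} (hθ : 0 < θ) (k : ℕ) :
    PT k (-Real.log θ) = 1 - θ * ∑ j ∈ range k, (-Real.log θ) ^ j / (j.factorial : ℝ) := by
  unfold PT Ek
  rw [neg_neg, Real.exp_log hθ]

/-- the passage time to infinity -/
theorem sup_theta (i : Fin d) {p : ℝ≥0} (hp : p ≤ 1)
    (h0 : 0 < PB (Fin d → ℤ) p hp (Perc d)) :
    (∀ k : ℕ, PB (Fin d → ℤ) p hp {ω | ∃ n, k < TT d n ω} ≤
      ENNReal.ofReal (PT (k + 1) (-Real.log (PB (Fin d → ℤ) p hp (Perc d)).toReal))) ∧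
    ∫⁻ ω, (⨆ n, (TT d n ω : ℝ≥0∞)) ∂(PB (Fin d → ℤ) p hp) ≤
      ENNReal.ofReal (-Real.log (PB (Fin d → ℤ) p hp (Perc d)).toReal) := by
  constructor
  · intro k
    have e : {ω : Sym2 (Fin d → ℤ) → Bool | ∃ n, k < TT d n ω} = ⋃ n, {ω | k < TT d n ω} := by
      ext ω; simp
    have hm : Monotone (fun n => {ω : Sym2 (Fin d → ℤ) → Bool | k < TT d n ω}) := by
      intro n m h ω (hω : k < TT d n ω)
      exact lt_of_lt_of_le hω (TT_mono i h ω)
    rw [e, hm.measure_iUnion]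
    exact iSup_le fun n => (tail_theta hp h0 n k).1
  · rw [lintegral_iSup (fun n => measurable_TT' i n)
      (fun n m h ω => Nat.cast_le.2 (TT_mono i h ω))]
    exact iSup_le fun n => (tail_theta hp h0 n 0).2

end Pool.Agent.FPPD15
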